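import Pool.Agent.H745Z.FIDefs
import Pool.Agent.H745Z.FIProof

namespace Pool.Agent.Results.MP_efa40c_ag.LinearlySpecial

open Pool.Agent.H745Z.FI

/-- There are positive `n, d, m, s` outside the listed exceptions such that for general points the
system of forms of degree `d` with `s` points of multiplicity `m` in `ℙ^n` is linearly special. -/
theorem result : ∃ n d m s : ℕ, 1 ≤ n ∧ 1 ≤ m ∧ m ≤ d ∧ 1 ≤ s ∧
    s ≠ n + 3 ∧ s ≠ n + 4 ∧ ¬ (n = 2 ∧ (s = 7 ∨ s = 8)) ∧ ¬ (n = 3 ∧ s = 9 ∧ 2 * m ≤ d) ∧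
    ¬ (n = 4 ∧ s = 14 ∧ d = 2 * m ∧ (m = 2 ∨ m = 3)) ∧
    ∃ P : MvPolynomial (Fin s × Fin (n + 1)) ℂ, P ≠ 0 ∧
      ∀ p : Fin s → Fin (n + 1) → ℂ, MvPolynomial.eval (fun ij => p ij.1 ij.2) P ≠ 0 →
        (∀ i, p i ≠ 0) ∧
          (Module.finrank ℂ (linSys n d s (fun _ => m) p) : ℤ) ≠ ldim n d s (fun _ => m) := by
  obtain ⟨P, h1, h2⟩ := main
  exact ⟨2, 3, 3, 3, by norm_num, by norm_num, le_rfl, by norm_num, by norm_num, by norm_num,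
    by norm_num, by norm_num, by norm_num, P, h1, fun p hp => ⟨(h2 p hp).1, (h2 p hp).2.ne⟩⟩

end Pool.Agent.Results.MP_efa40c_ag.LinearlySpecial
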